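import Pool.Agent.H37.IS.Stm3

set_option autoImplicit false

namespace H37.IS

open N36365310

theorem gra_dec (V : Type) [Fintype V] [DecidableEq V] (G : SimpleGraph V) [DecidableRel G.Adj]
    [DecidablePred (fun S : Finset V => G.IsIndepSet (S : Set V))]
    (C : Finset V) (hC : ∀ u v, G.Adj u v → u ∈ C ∨ v ∈ C) (k : ℕ) :
    indepSeq G k = ∑ S ∈ C.powerset.filter (fun S : Finset V => G.IsIndepSet (S : Set V)),
      ch (Fintype.card V - C.card -
        ((Finset.univ \ C).filter (fun v => ∃ u ∈ S, G.Adj u v)).card) k S.card := by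
  set F : Finset (Finset V) := C.powerset.filter (fun S : Finset V => G.IsIndepSet (S : Set V)) with hF
  set a : Finset V → ℕ := fun S =>
    ((Finset.univ \ C).filter (fun v => ∃ u ∈ S, G.Adj u v)).card with ha
  set s : Finset V → ℕ := fun S => S.card with hs
  have hcardC : (Finset.univ \ C : Finset V).card = Fintype.card V - C.card := by
    rw [Finset.card_sdiff_of_subset (Finset.subset_univ C), Finset.card_univ]
  change indepSeq G k = sumch F (Fintype.card V - C.card) a s k
  set P : Finset (Finset V) := Finset.univ.filter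
    (fun I : Finset V => I.card = k ∧ G.IsIndepSet (I : Set V)) with hP
  have h1 : indepSeq G k = P.card := by
    unfold indepSeq
    rw [Nat.card_eq_fintype_card, Fintype.card_subtype]
  have h2 : P.card = ∑ S ∈ F, (P.filter (fun I => I ∩ C = S)).card := by
    apply Finset.card_eq_sum_card_fiberwise
    intro I hI
    have hI' : I.card = k ∧ G.IsIndepSet (I : Set V) := by
      have := Finset.mem_coe.1 hI
      rw [hP, Finset.mem_filter] at this
      exact this.2
    apply Finset.mem_coe.2
    rw [hF, Finset.mem_filter, Finset.mem_powerset]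
    refine ⟨Finset.inter_subset_right, ?_⟩
    intro x hx y hy hne
    exact hI'.2 (Finset.mem_coe.2 (Finset.mem_inter.1 (Finset.mem_coe.1 hx)).1)
      (Finset.mem_coe.2 (Finset.mem_inter.1 (Finset.mem_coe.1 hy)).1) hne
  rw [h1, h2]
  unfold sumch
  apply Finset.sum_congr rfl
  intro S hS
  rw [hF, Finset.mem_filter, Finset.mem_powerset] at hS
  obtain ⟨hSC, hSind⟩ := hS
  unfold ch
  by_cases hk : s S ≤ k
  · rw [if_pos hk]
    set R : Finset V := (Finset.univ \ C).filter (fun v => ¬ ∃ u ∈ S, G.Adj u v) with hR
    have hRc : R.card = Fintype.card V - C.card - a S := by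
      have h3 := Finset.card_filter_add_card_filter_not (s := (Finset.univ \ C : Finset V))
        (fun v => ∃ u ∈ S, G.Adj u v)
      rw [hcardC] at h3
      have h4 : a S = ((Finset.univ \ C).filter (fun v => ∃ u ∈ S, G.Adj u v)).card := rfl
      rw [← h4] at h3
      have h5 : R.card = ((Finset.univ \ C).filter (fun v => ¬ ∃ u ∈ S, G.Adj u v)).card := rfl
      rw [← h5] at h3
      omega
    rw [← hRc, ← Finset.card_powersetCard]
    apply Finset.card_nbij' (fun I => I \ C) (fun J => S ∪ J)
    · intro I hI
      have hI' := Finset.mem_coe.1 hI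
      rw [Finset.mem_filter, hP, Finset.mem_filter] at hI'
      obtain ⟨⟨_, hIk, hIi⟩, hIS⟩ := hI'
      apply Finset.mem_coe.2
      rw [Finset.mem_powersetCard]
      constructor
      · intro v hv
        rw [Finset.mem_sdiff] at hv
        rw [hR, Finset.mem_filter, Finset.mem_sdiff]
        refine ⟨⟨Finset.mem_univ _, hv.2⟩, ?_⟩
        rintro ⟨u, hu, huv⟩
        have huI : u ∈ I := by
          rw [← hIS] at hu
          exact (Finset.mem_inter.1 hu).1
        exact hIi (Finset.mem_coe.2 huI) (Finset.mem_coe.2 hv.1) huv.ne huv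
      · have h6 := Finset.card_inter_add_card_sdiff I C
        rw [hIS, hIk] at h6
        show (I \ C).card = k - S.card
        omega
    · intro J hJ
      have hJ' := Finset.mem_coe.1 hJ
      rw [Finset.mem_powersetCard] at hJ'
      obtain ⟨hJR, hJc⟩ := hJ'
      have hJC : ∀ v ∈ J, v ∉ C ∧ ¬ ∃ u ∈ S, G.Adj u v := by
        intro v hv
        have := hJR hv
        rw [hR, Finset.mem_filter, Finset.mem_sdiff] at this
        exact ⟨this.1.2, this.2⟩
      have hdisj : Disjoint S J := by
        rw [Finset.disjoint_left]
        intro x hx hxJ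
        exact (hJC x hxJ).1 (hSC hx)
      apply Finset.mem_coe.2
      rw [Finset.mem_filter, hP, Finset.mem_filter]
      refine ⟨⟨Finset.mem_univ _, ?_, ?_⟩, ?_⟩
      · rw [Finset.card_union_of_disjoint hdisj, hJc]
        have : s S = S.card := rfl
        omega
      · intro x hx y hy hne hadj
        have hx' := Finset.mem_coe.1 hx
        have hy' := Finset.mem_coe.1 hy
        rw [Finset.mem_union] at hx' hy'
        rcases hx' with hx' | hx' <;> rcases hy' with hy' | hy'
        · exact hSind (Finset.mem_coe.2 hx') (Finset.mem_coe.2 hy') hne hadj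
        · exact (hJC y hy').2 ⟨x, hx', hadj⟩
        · exact (hJC x hx').2 ⟨y, hy', hadj.symm⟩
        · rcases hC x y hadj with h | h
          · exact (hJC x hx').1 h
          · exact (hJC y hy').1 h
      · ext x
        rw [Finset.mem_inter, Finset.mem_union]
        constructor
        · rintro ⟨h | h, hxC⟩
          · exact h
          · exact absurd hxC (hJC x h).1
        · intro h
          exact ⟨Or.inl h, hSC h⟩
    · intro I hI
      have hI' := Finset.mem_coe.1 hI
      rw [Finset.mem_filter] at hI'
      show S ∪ (I \ C) = I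
      rw [← hI'.2]
      ext x
      simp only [Finset.mem_union, Finset.mem_inter, Finset.mem_sdiff]
      tauto
    · intro J hJ
      have hJ' := Finset.mem_coe.1 hJ
      rw [Finset.mem_powersetCard] at hJ'
      show (S ∪ J) \ C = J
      ext x
      simp only [Finset.mem_union, Finset.mem_sdiff]
      constructor
      · rintro ⟨h | h, hxC⟩
        · exact absurd (hSC h) hxC
        · exact h
      · intro h
        have := hJ'.1 h
        rw [hR, Finset.mem_filter, Finset.mem_sdiff] at this
        exact ⟨Or.inr h, this.1.2⟩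
  · rw [if_neg hk, Finset.card_eq_zero, Finset.filter_eq_empty_iff]
    intro I hI hIS
    rw [hP, Finset.mem_filter] at hI
    apply hk
    have h7 := Finset.card_le_card (Finset.inter_subset_left : I ∩ C ⊆ I)
    rw [hIS, hI.2.1] at h7
    exact h7

theorem gra_count (V : Type) [Fintype V] [DecidableEq V] (G : SimpleGraph V) [DecidableRel G.Adj]
    (C S : Finset V) (h1 : ∀ w, w ∉ C → ∃! v, G.Adj w v) :
    ((Finset.univ \ C).filter (fun v => ∃ u ∈ S, G.Adj u v)).card =
      ∑ u ∈ S, {w : V | G.Adj u w ∧ w ∉ C}.ncard := by
  have e : (Finset.univ \ C).filter (fun v => ∃ u ∈ S, G.Adj u v) =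
      S.biUnion (fun u => (Finset.univ \ C).filter (fun v => G.Adj u v)) := by
    ext v
    simp only [Finset.mem_filter, Finset.mem_sdiff, Finset.mem_univ, true_and, Finset.mem_biUnion]
    constructor
    · rintro ⟨h, u, hu, huv⟩
      exact ⟨u, hu, h, huv⟩
    · rintro ⟨u, hu, h, huv⟩
      exact ⟨h, u, hu, huv⟩
  rw [e, Finset.card_biUnion]
  · apply Finset.sum_congr rfl
    intro u _
    rw [← Set.ncard_coe_finset]
    congr 1
    ext w
    simp only [Finset.coe_filter, Finset.mem_sdiff, Finset.mem_univ, true_and, Set.mem_ofPred_eq]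
    tauto
  · intro u _ u' _ hne
    show Disjoint ((Finset.univ \ C).filter (fun v => G.Adj u v))
      ((Finset.univ \ C).filter (fun v => G.Adj u' v))
    rw [Finset.disjoint_left]
    intro w hw hw'
    simp only [Finset.mem_filter, Finset.mem_sdiff, Finset.mem_univ, true_and] at hw hw'
    exact hne ((h1 w hw.1).unique hw.2.symm hw'.2.symm)

theorem GRA_proved : S_GRA := by
  classical
  intro V _ _ G C hC h1
  constructor
  · have h2 := gra_count V G C C h1
    have h3 : (Finset.univ \ C).filter (fun v => ∃ u ∈ C, G.Adj u v) = Finset.univ \ C := by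
      apply Finset.filter_true_of_mem
      intro w hw
      rw [Finset.mem_sdiff] at hw
      obtain ⟨v, hv, _⟩ := h1 w hw.2
      rcases hC w v hv with h | h
      · exact absurd h hw.2
      · exact ⟨v, h, hv.symm⟩
    rw [h3, Finset.card_sdiff_of_subset (Finset.subset_univ C), Finset.card_univ] at h2
    rw [h2]
    exact Finset.sum_coe_sort C (fun v => {w : V | G.Adj v w ∧ w ∉ C}.ncard)
  · intro k
    rw [gra_dec V G C hC k]
    unfold FF sumch
    symm
    apply Finset.sum_bij (fun (A : Finset {v // v ∈ C}) _ => A.map (Function.Embedding.subtype _))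
    · intro A hA
      rw [Finset.mem_filter] at hA ⊢
      rw [Finset.mem_powerset]
      constructor
      · intro x hx
        rw [Finset.mem_map] at hx
        obtain ⟨y, _, rfl⟩ := hx
        exact y.2
      · intro x hx y hy hne hadj
        rw [Finset.mem_coe, Finset.mem_map] at hx hy
        obtain ⟨x', hx', rfl⟩ := hx
        obtain ⟨y', hy', rfl⟩ := hy
        exact hA.2 (Finset.mem_coe.2 hx') (Finset.mem_coe.2 hy') (fun e => hne (by rw [e])) hadj
    · intro A _ A' _ h
      exact Finset.map_injective _ h
    · intro S hS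
      rw [Finset.mem_filter, Finset.mem_powerset] at hS
      have hmap : (S.subtype (fun v => v ∈ C)).map (Function.Embedding.subtype _) = S :=
        Finset.subtype_map_of_mem (fun x hx => hS.1 hx)
      refine ⟨S.subtype (fun v => v ∈ C), ?_, hmap⟩
      rw [Finset.mem_filter]
      refine ⟨Finset.mem_univ _, ?_⟩
      intro x hx y hy hne hadj
      rw [Finset.mem_coe, Finset.mem_subtype] at hx hy
      exact hS.2 (Finset.mem_coe.2 hx) (Finset.mem_coe.2 hy) (fun e => hne (Subtype.ext e)) hadj
    · intro A _
      rw [gra_count V G C _ h1, Finset.card_map, Finset.sum_map]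
      rfl

end H37.IS
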